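import Pool.Agent.W2helper22.ETS.Stm
import Pool.Agent.W2helper22.SM.Prob
import Pool.Agent.W2helper22.SM.Logic

set_option autoImplicit false

/-!
# An algorithm has to read the weights of all edges
-/

namespace Pool.Agent.W2helper69.ETS

open Pool.Agent.W2helper22.SM
open Pool.Agent.W2helper22.ET (Instance Algo Decides)
open Pool.Agent.W2helper22.ETS (nE)

/-! ### Locality of runs -/

/-- entries of arrays -/
abbrev Ent : Type := ℕ × ℕ × ℕ

/-- the memories agree outside of a set of entries -/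
def Agree (D : Set Ent) (m m' : Mem) : Prop :=
  m.v = m'.v ∧ ∀ r i j, (r, i, j) ∉ D → m.a r i j = m'.a r i j

/-- the entries read by an expression -/
def rdE (ω : ℕ → ℕ → ℕ) (m : Mem) : Expr → Finset Ent
  | .lit _ => ∅
  | .reg _ => ∅
  | .bin _ e f => rdE ω m e ∪ rdE ω m f
  | .get r i j => rdE ω m i ∪ rdE ω m j ∪ {(r, i.eval ω m, j.eval ω m)}
  | .rnd i j => rdE ω m i ∪ rdE ω m j

theorem rdE_card (ω : ℕ → ℕ → ℕ) (m : Mem) (e : Expr) : (rdE ω m e).card ≤ e.cost := by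
  induction e with
  | lit n => simp [rdE]
  | reg x => simp [rdE]
  | bin o e f he hf =>
    have := Finset.card_union_le (rdE ω m e) (rdE ω m f)
    simp only [rdE, Expr.cost]
    omega
  | get r i j hi hj =>
    have h1 := Finset.card_union_le (rdE ω m i) (rdE ω m j)
    have h2 := Finset.card_union_le (rdE ω m i ∪ rdE ω m j) {(r, i.eval ω m, j.eval ω m)}
    simp only [rdE, Expr.cost]
    rw [Finset.card_singleton] at h2
    omega
  | rnd i j hi hj =>
    have := Finset.card_union_le (rdE ω m i) (rdE ω m j)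
    simp only [rdE, Expr.cost]
    omega

theorem rdE_eval {ω : ℕ → ℕ → ℕ} {m m' : Mem} {D : Set Ent} (hA : Agree D m m') (e : Expr) :
    (∀ x ∈ rdE ω m e, x ∉ D) → e.eval ω m = e.eval ω m' := by
  induction e with
  | lit n => intro _; rfl
  | reg x => intro _; exact congrFun hA.1 x
  | bin o e f he hf =>
    intro h
    simp only [Expr.eval]
    rw [he fun x hx => h x (Finset.mem_union_left _ hx),
      hf fun x hx => h x (Finset.mem_union_right _ hx)]
  | get r i j hi hj =>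
    intro h
    simp only [rdE, Finset.mem_union, Finset.mem_singleton] at h
    simp only [Expr.eval]
    rw [← hi fun x hx => h x (Or.inl (Or.inl hx)), ← hj fun x hx => h x (Or.inl (Or.inr hx))]
    exact hA.2 _ _ _ (h _ (Or.inr rfl))
  | rnd i j hi hj =>
    intro h
    simp only [Expr.eval]
    rw [hi fun x hx => h x (Finset.mem_union_left _ hx),
      hj fun x hx => h x (Finset.mem_union_right _ hx)]

theorem rdE_ok {W : ℕ} {ω : ℕ → ℕ → ℕ} {m m' : Mem} {D : Set Ent} (hA : Agree D m m') (e : Expr) :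
    (∀ x ∈ rdE ω m e, x ∉ D) → e.ok W ω m → e.ok W ω m' := by
  induction e with
  | lit n => intro _ h; exact h
  | reg x =>
    intro _ h
    simp only [Expr.ok] at h ⊢
    rwa [← hA.1]
  | bin o e f he hf =>
    intro h hok
    have h1 : ∀ x ∈ rdE ω m e, x ∉ D := fun x hx => h x (Finset.mem_union_left _ hx)
    have h2 : ∀ x ∈ rdE ω m f, x ∉ D := fun x hx => h x (Finset.mem_union_right _ hx)
    simp only [Expr.ok] at hok ⊢
    rw [← rdE_eval hA e h1, ← rdE_eval hA f h2]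
    exact ⟨he h1 hok.1, hf h2 hok.2.1, hok.2.2⟩
  | get r i j hi hj =>
    intro h hok
    have h3 := rdE_eval hA (.get r i j) h
    simp only [rdE, Finset.mem_union, Finset.mem_singleton] at h
    simp only [Expr.ok] at hok ⊢
    refine ⟨hi (fun x hx => h x (Or.inl (Or.inl hx))) hok.1,
      hj (fun x hx => h x (Or.inl (Or.inr hx))) hok.2.1, ?_⟩
    simp only [Expr.eval] at h3
    rw [← h3]
    exact hok.2.2
  | rnd i j hi hj =>
    intro h hok
    have h1 : ∀ x ∈ rdE ω m i, x ∉ D := fun x hx => h x (Finset.mem_union_left _ hx)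
    have h2 : ∀ x ∈ rdE ω m j, x ∉ D := fun x hx => h x (Finset.mem_union_right _ hx)
    simp only [Expr.ok] at hok ⊢
    rw [← rdE_eval hA i h1, ← rdE_eval hA j h2]
    exact ⟨hi h1 hok.1, hj h2 hok.2.1, hok.2.2⟩

/-- the entries read by a test -/
def rdT (ω : ℕ → ℕ → ℕ) (m : Mem) : Test → Finset Ent
  | .lt e f => rdE ω m e ∪ rdE ω m f
  | .eq e f => rdE ω m e ∪ rdE ω m f
  | .not s => rdT ω m s
  | .and s t => rdT ω m s ∪ rdT ω m t

theorem rdT_card (ω : ℕ → ℕ → ℕ) (m : Mem) (t : Test) : (rdT ω m t).card ≤ t.cost := by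
  induction t with
  | lt e f =>
    have := Finset.card_union_le (rdE ω m e) (rdE ω m f)
    have h1 := rdE_card ω m e
    have h2 := rdE_card ω m f
    simp only [rdT, Test.cost]
    omega
  | eq e f =>
    have := Finset.card_union_le (rdE ω m e) (rdE ω m f)
    have h1 := rdE_card ω m e
    have h2 := rdE_card ω m f
    simp only [rdT, Test.cost]
    omega
  | not s hs =>
    simp only [rdT, Test.cost]
    omega
  | and s t hs ht =>
    have := Finset.card_union_le (rdT ω m s) (rdT ω m t)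
    simp only [rdT, Test.cost]
    omega

theorem rdT_holds {ω : ℕ → ℕ → ℕ} {m m' : Mem} {D : Set Ent} (hA : Agree D m m') (t : Test) :
    (∀ x ∈ rdT ω m t, x ∉ D) → (t.holds ω m ↔ t.holds ω m') := by
  induction t with
  | lt e f =>
    intro h
    simp only [Test.holds]
    rw [rdE_eval hA e fun x hx => h x (Finset.mem_union_left _ hx),
      rdE_eval hA f fun x hx => h x (Finset.mem_union_right _ hx)]
  | eq e f =>
    intro h
    simp only [Test.holds]
    rw [rdE_eval hA e fun x hx => h x (Finset.mem_union_left _ hx),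
      rdE_eval hA f fun x hx => h x (Finset.mem_union_right _ hx)]
  | not s hs =>
    intro h
    simp only [Test.holds]
    rw [hs h]
  | and s t hs ht =>
    intro h
    simp only [Test.holds]
    rw [hs fun x hx => h x (Finset.mem_union_left _ hx),
      ht fun x hx => h x (Finset.mem_union_right _ hx)]

theorem rdT_ok {W : ℕ} {ω : ℕ → ℕ → ℕ} {m m' : Mem} {D : Set Ent} (hA : Agree D m m') (t : Test) :
    (∀ x ∈ rdT ω m t, x ∉ D) → t.ok W ω m → t.ok W ω m' := by
  induction t with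
  | lt e f =>
    intro h hok
    exact ⟨rdE_ok hA e (fun x hx => h x (Finset.mem_union_left _ hx)) hok.1,
      rdE_ok hA f (fun x hx => h x (Finset.mem_union_right _ hx)) hok.2⟩
  | eq e f =>
    intro h hok
    exact ⟨rdE_ok hA e (fun x hx => h x (Finset.mem_union_left _ hx)) hok.1,
      rdE_ok hA f (fun x hx => h x (Finset.mem_union_right _ hx)) hok.2⟩
  | not s hs =>
    intro h hok
    exact hs h hok
  | and s t hs ht =>
    intro h hok
    exact ⟨hs (fun x hx => h x (Finset.mem_union_left _ hx)) hok.1,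
      ht (fun x hx => h x (Finset.mem_union_right _ hx)) hok.2⟩

theorem Agree.setV {D : Set Ent} {m m' : Mem} (h : Agree D m m') (x n : ℕ) :
    Agree D (m.setV x n) (m'.setV x n) := by
  refine ⟨?_, fun r i j hD => h.2 r i j hD⟩
  funext y
  simp only [setV_v, h.1]

theorem Agree.setA {D : Set Ent} {m m' : Mem} (h : Agree D m m') (r i j n : ℕ) :
    Agree D (m.setA r i j n) (m'.setA r i j n) := by
  refine ⟨h.1, fun r' i' j' hD => ?_⟩
  rw [setA_a, setA_a, h.2 r' i' j' hD]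

/-- A run reads at most as many entries as its time; if no entry in `D` is read, the contents of
the entries in `D` do not matter. -/
theorem local_run {W : ℕ} {ω : ℕ → ℕ → ℕ} {p : Prog} {m m' : Mem} {c : ℕ}
    (h : Runs W ω p m m' c) : ∃ R : Finset Ent, R.card ≤ c ∧ ∀ (D : Set Ent) (m₂ : Mem),
      (∀ x ∈ R, x ∉ D) → Agree D m m₂ → ∃ m₂', Runs W ω p m₂ m₂' c ∧ Agree D m' m₂' := by
  classical
  induction h with
  | skip m =>
    exact ⟨∅, by simp, fun D m₂ _ hA => ⟨m₂, .skip _, hA⟩⟩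
  | assign x e m he =>
    refine ⟨rdE ω m e, (rdE_card ω m e).trans (Nat.le_succ _), fun D m₂ hR hA =>
      ⟨_, .assign x e m₂ (rdE_ok hA e hR he), ?_⟩⟩
    rw [← rdE_eval hA e hR]
    exact hA.setV x _
  | store r i j e m hi hj he =>
    refine ⟨rdE ω m i ∪ rdE ω m j ∪ rdE ω m e, ?_, fun D m₂ hR hA => ?_⟩
    · have h1 := Finset.card_union_le (rdE ω m i) (rdE ω m j)
      have h2 := Finset.card_union_le (rdE ω m i ∪ rdE ω m j) (rdE ω m e)
      have h3 := rdE_card ω m i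
      have h4 := rdE_card ω m j
      have h5 := rdE_card ω m e
      omega
    · simp only [Finset.mem_union] at hR
      have h1 : ∀ x ∈ rdE ω m i, x ∉ D := fun x hx => hR x (Or.inl (Or.inl hx))
      have h2 : ∀ x ∈ rdE ω m j, x ∉ D := fun x hx => hR x (Or.inl (Or.inr hx))
      have h3 : ∀ x ∈ rdE ω m e, x ∉ D := fun x hx => hR x (Or.inr hx)
      refine ⟨_, .store r i j e m₂ (rdE_ok hA i h1 hi) (rdE_ok hA j h2 hj) (rdE_ok hA e h3 he), ?_⟩
      rw [← rdE_eval hA i h1, ← rdE_eval hA j h2, ← rdE_eval hA e h3]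
      exact hA.setA _ _ _ _
  | seq _ _ ih₁ ih₂ =>
    obtain ⟨R₁, hc₁, h₁⟩ := ih₁
    obtain ⟨R₂, hc₂, h₂⟩ := ih₂
    refine ⟨R₁ ∪ R₂, (Finset.card_union_le _ _).trans (by omega), fun D m₂ hR hA => ?_⟩
    obtain ⟨m₃, h₃, hA₃⟩ := h₁ D m₂ (fun x hx => hR x (Finset.mem_union_left _ hx)) hA
    obtain ⟨m₄, h₄, hA₄⟩ := h₂ D m₃ (fun x hx => hR x (Finset.mem_union_right _ hx)) hA₃
    exact ⟨m₄, .seq h₃ h₄, hA₄⟩
  | @ite_true t p q m m' c hok ht _ ih =>
    obtain ⟨R, hc, h⟩ := ih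
    have hct := rdT_card ω m t
    refine ⟨rdT ω m t ∪ R, (Finset.card_union_le _ _).trans (by omega), fun D m₂ hR hA => ?_⟩
    have h1 : ∀ x ∈ rdT ω m t, x ∉ D := fun x hx => hR x (Finset.mem_union_left _ hx)
    obtain ⟨m₃, h₃, hA₃⟩ := h D m₂ (fun x hx => hR x (Finset.mem_union_right _ hx)) hA
    exact ⟨m₃, .ite_true (rdT_ok hA t h1 hok) ((rdT_holds hA t h1).1 ht) h₃, hA₃⟩
  | @ite_false t p q m m' c hok ht _ ih =>
    obtain ⟨R, hc, h⟩ := ih
    have hct := rdT_card ω m t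
    refine ⟨rdT ω m t ∪ R, (Finset.card_union_le _ _).trans (by omega), fun D m₂ hR hA => ?_⟩
    have h1 : ∀ x ∈ rdT ω m t, x ∉ D := fun x hx => hR x (Finset.mem_union_left _ hx)
    obtain ⟨m₃, h₃, hA₃⟩ := h D m₂ (fun x hx => hR x (Finset.mem_union_right _ hx)) hA
    exact ⟨m₃, .ite_false (rdT_ok hA t h1 hok) (fun h' => ht ((rdT_holds hA t h1).2 h')) h₃, hA₃⟩
  | @loop_done t p m hok ht =>
    refine ⟨rdT ω m t, rdT_card ω m t, fun D m₂ hR hA => ?_⟩
    exact ⟨m₂, .loop_done (rdT_ok hA t hR hok) (fun h' => ht ((rdT_holds hA t hR).2 h')), hA⟩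
  | @loop_step t p m m' m'' c d hok ht _ _ ih₁ ih₂ =>
    obtain ⟨R₁, hc₁, h₁⟩ := ih₁
    obtain ⟨R₂, hc₂, h₂⟩ := ih₂
    have hct := rdT_card ω m t
    refine ⟨rdT ω m t ∪ R₁ ∪ R₂, ?_, fun D m₂ hR hA => ?_⟩
    · have h1 := Finset.card_union_le (rdT ω m t) R₁
      have h2 := Finset.card_union_le (rdT ω m t ∪ R₁) R₂
      omega
    · simp only [Finset.mem_union] at hR
      have h1 : ∀ x ∈ rdT ω m t, x ∉ D := fun x hx => hR x (Or.inl (Or.inl hx))
      obtain ⟨m₃, h₃, hA₃⟩ := h₁ D m₂ (fun x hx => hR x (Or.inl (Or.inr hx))) hA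
      obtain ⟨m₄, h₄, hA₄⟩ := h₂ D m₃ (fun x hx => hR x (Or.inr hx)) hA₃
      exact ⟨m₄, .loop_step (rdT_ok hA t h1 hok) ((rdT_holds hA t h1).1 ht) h₃ h₄, hA₄⟩

/-! ### The instances -/

/-- all edges of `G`; all weights are `1`, except that of `{x, y}`, which is `-2`, if `b` -/
noncomputable def ins {n : ℕ} (hn : 2 ≤ n) (G : SimpleGraph (Fin n)) (b : Bool) (x y : Fin n) :
    Instance n where
  E := G
  w := fun i j => if b = true ∧ ((i = x ∧ j = y) ∨ (i = y ∧ j = x)) then -2 else 1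
  wsymm := by
    intro i j
    have : ((i = x ∧ j = y) ∨ (i = y ∧ j = x)) ↔ ((j = x ∧ i = y) ∨ (j = y ∧ i = x)) := by tauto
    simp only [this]
  bound := by
    intro i j
    have h1 : (2 : ℤ) ≤ (n : ℤ) ^ 300 := by
      calc (2 : ℤ) = 2 ^ 1 := by norm_num
        _ ≤ 2 ^ 300 := pow_le_pow_right₀ (by norm_num) (by norm_num)
        _ ≤ (n : ℤ) ^ 300 := pow_le_pow_left₀ (by norm_num) (by exact_mod_cast hn) _
    split_ifs
    · simpa using h1
    · simp only [abs_one]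
      omega

theorem ins_no {n : ℕ} (hn : 2 ≤ n) (G : SimpleGraph (Fin n)) (x y : Fin n) :
    ¬ (ins hn G false x y).Yes := by
  rintro ⟨i, j, k, _, _, _, h⟩
  simp [ins] at h

theorem ins_yes {n : ℕ} (hn : 2 ≤ n) (G : SimpleGraph (Fin n)) (x y z : Fin n) (hxy : G.Adj x y)
    (hyz : G.Adj y z) (hxz : G.Adj x z) : (ins hn G true x y).Yes := by
  refine ⟨x, y, z, hxy, hyz, hxz, ?_⟩
  have h1 : x ≠ y := hxy.ne
  have h2 : y ≠ z := hyz.ne
  have h3 : x ≠ z := hxz.ne
  simp [ins, h1, h2, h3, h1.symm, h2.symm, h3.symm]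

theorem ins_agree {n : ℕ} (hn : 2 ≤ n) (G : SimpleGraph (Fin n)) (x y x' y' : Fin n) :
    Agree {((1 : ℕ), (x : ℕ), (y : ℕ)), ((1 : ℕ), (y : ℕ), (x : ℕ))}
      (ins hn G false x' y').enc (ins hn G true x y).enc := by
  refine ⟨rfl, fun r i j hD => ?_⟩
  simp only [Set.mem_insert_iff, Set.mem_singleton_iff, Prod.mk.injEq, not_or, not_and] at hD
  unfold Instance.enc
  dsimp only
  by_cases h : i < n ∧ j < n
  · rw [dif_pos h, dif_pos h]
    by_cases hr : r = 0
    · rw [if_pos hr, if_pos hr]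
      rfl
    · rw [if_neg hr, if_neg hr]
      by_cases hr1 : r = 1
      · rw [if_pos hr1, if_pos hr1]
        have h5 : ¬ (((⟨i, h.1⟩ : Fin n) = x ∧ (⟨j, h.2⟩ : Fin n) = y) ∨
            ((⟨i, h.1⟩ : Fin n) = y ∧ (⟨j, h.2⟩ : Fin n) = x)) := by
          rintro (⟨h6, h7⟩ | ⟨h6, h7⟩)
          · exact hD.1 hr1 (by rw [← h6]) (by rw [← h7])
          · exact hD.2 hr1 (by rw [← h6]) (by rw [← h7])
        simp [ins, h5]
      · rw [if_neg hr1, if_neg hr1]
  · rw [dif_neg h, dif_neg h]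

theorem prob_and_ge {Ω : Type} [Finite Ω] [Nonempty Ω] (P Q : Ω → Prop) (h1 : 2 / 3 ≤ prob P)
    (h2 : 2 / 3 ≤ prob Q) : 1 / 3 ≤ prob fun ω => P ω ∧ Q ω := by
  have h3 := prob_or (fun ω => ¬ P ω) (fun ω => ¬ Q ω)
  rw [prob_not, prob_not] at h3
  have h4 := prob_not (fun ω : Ω => ¬ P ω ∨ ¬ Q ω)
  have h5 := prob_mono (P := fun ω : Ω => ¬ (¬ P ω ∨ ¬ Q ω)) (Q := fun ω => P ω ∧ Q ω)
    (fun ω h => by tauto)
  linarith

theorem p_read : Pool.Agent.W2helper22.ETS.P_READ := by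
  classical
  intro A n G T hn hdec htri
  have hn0 : 0 < n := by omega
  let z0 : Fin n := ⟨0, hn0⟩
  have hY := hdec (ins hn G false z0 z0) le_rfl
  -- the run on the instance without a zero triangle
  choose m t hrun ht using hY.1
  choose R hRc hR using fun ω => local_run (hrun ω)
  let Ω := Tape (A.W n) (bits n)
  let E : Finset (Fin n × Fin n) := Finset.univ.filter fun p => G.Adj p.1 p.2
  let Hp : Fin n × Fin n → Ω → Prop := fun p ω =>
    ((1 : ℕ), (p.1 : ℕ), (p.2 : ℕ)) ∈ R ω ∨ ((1 : ℕ), (p.2 : ℕ), (p.1 : ℕ)) ∈ R ω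
  have hhit : ∀ p ∈ E, 1 / 3 ≤ prob (Hp p) := by
    intro p hp
    have hadj : G.Adj p.1 p.2 := (Finset.mem_filter.1 hp).2
    obtain ⟨z, hyz, hxz⟩ := htri p.1 p.2 hadj
    have hYe := hdec (ins hn G true p.1 p.2) le_rfl
    refine (prob_and_ge _ _ hY.2 hYe.2).trans (prob_mono ?_)
    rintro ω ⟨⟨m₁, t₁, hr₁, ha₁⟩, ⟨m₂, t₂, hr₂, ha₂⟩⟩
    by_contra hcon
    have hcon' : ∀ x ∈ R ω, x ∉ ({((1 : ℕ), (p.1 : ℕ), (p.2 : ℕ)),
        ((1 : ℕ), (p.2 : ℕ), (p.1 : ℕ))} : Set Ent) := by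
      intro x hx hx2
      rcases hx2 with h | h
      · exact hcon (Or.inl (by rw [← h]; exact hx))
      · exact hcon (Or.inr (by rw [← h]; exact hx))
    obtain ⟨m₃, hr₃, hA⟩ := hR ω _ _ hcon' (ins_agree hn G p.1 p.2 z0 z0)
    obtain ⟨h1, -⟩ := Runs.det hr₂ hr₃
    obtain ⟨h2, -⟩ := Runs.det hr₁ (hrun ω)
    have h3 : m₂.v 1 ≠ 0 := ha₂.2 (ins_yes hn G p.1 p.2 z hadj hyz hxz)
    have h4 : m₁.v 1 = 0 := by
      by_contra h
      exact ins_no hn G z0 z0 (ha₁.1 h)
    rw [h1] at h3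
    rw [h2, hA.1] at h4
    exact h3 h4
  have hcard : ∀ ω : Ω, ((E.filter fun p => Hp p ω).card : ℝ) ≤ 2 * T := by
    intro ω
    have h1 : (E.filter fun p => Hp p ω) ⊆
        (Finset.univ.filter fun p : Fin n × Fin n => ((1 : ℕ), (p.1 : ℕ), (p.2 : ℕ)) ∈ R ω) ∪
        (Finset.univ.filter fun p : Fin n × Fin n => ((1 : ℕ), (p.2 : ℕ), (p.1 : ℕ)) ∈ R ω) := by
      intro p hp
      rw [Finset.mem_union, Finset.mem_filter, Finset.mem_filter]
      rcases (Finset.mem_filter.1 hp).2 with h | h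
      · exact Or.inl ⟨Finset.mem_univ _, h⟩
      · exact Or.inr ⟨Finset.mem_univ _, h⟩
    have h2 : (Finset.univ.filter fun p : Fin n × Fin n =>
        ((1 : ℕ), (p.1 : ℕ), (p.2 : ℕ)) ∈ R ω).card ≤ (R ω).card := by
      refine Finset.card_le_card_of_injOn (fun p => ((1 : ℕ), (p.1 : ℕ), (p.2 : ℕ)))
        (fun p hp => (Finset.mem_filter.1 hp).2) ?_
      intro p _ q _ hpq
      simp only [Prod.mk.injEq, true_and] at hpq
      exact Prod.ext (Fin.ext hpq.1) (Fin.ext hpq.2)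
    have h3 : (Finset.univ.filter fun p : Fin n × Fin n =>
        ((1 : ℕ), (p.2 : ℕ), (p.1 : ℕ)) ∈ R ω).card ≤ (R ω).card := by
      refine Finset.card_le_card_of_injOn (fun p => ((1 : ℕ), (p.2 : ℕ), (p.1 : ℕ)))
        (fun p hp => (Finset.mem_filter.1 hp).2) ?_
      intro p _ q _ hpq
      simp only [Prod.mk.injEq, true_and] at hpq
      exact Prod.ext (Fin.ext hpq.2) (Fin.ext hpq.1)
    have h4 : (E.filter fun p => Hp p ω).card ≤ 2 * t ω := by
      have h5 := (Finset.card_le_card h1).trans (Finset.card_union_le _ _)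
      have h6 := hRc ω
      omega
    have h7 : ((E.filter fun p => Hp p ω).card : ℝ) ≤ 2 * (t ω : ℝ) := by exact_mod_cast h4
    linarith [ht ω]
  have hΩ : (0 : ℝ) < Fintype.card Ω := by
    have : 0 < Fintype.card Ω := Fintype.card_pos
    exact_mod_cast this
  have hpr : ∀ p, prob (Hp p) = ((Finset.univ.filter (Hp p)).card : ℝ) / Fintype.card Ω := by
    intro p
    unfold prob
    rw [Nat.card_eq_fintype_card, Nat.card_eq_fintype_card, Fintype.card_subtype]
  have hsum : ∑ p ∈ E, (Finset.univ.filter (Hp p)).card =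
      ∑ ω : Ω, (E.filter fun p => Hp p ω).card :=
    Finset.sum_card_bipartiteAbove_eq_sum_card_bipartiteBelow (fun p ω => Hp p ω)
  have hlow : (E.card : ℝ) * (1 / 3 * Fintype.card Ω) ≤
      ((∑ p ∈ E, (Finset.univ.filter (Hp p)).card : ℕ) : ℝ) := by
    push_cast
    rw [← nsmul_eq_mul]
    refine Finset.card_nsmul_le_sum _ _ _ fun p hp => ?_
    have h := hhit p hp
    rw [hpr, le_div_iff₀ hΩ] at h
    exact h
  have hup : ((∑ ω : Ω, (E.filter fun p => Hp p ω).card : ℕ) : ℝ) ≤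
      (Fintype.card Ω : ℝ) * (2 * T) := by
    push_cast
    rw [← nsmul_eq_mul, ← Finset.card_univ]
    exact Finset.sum_le_card_nsmul _ _ _ fun ω _ => hcard ω
  rw [hsum] at hlow
  have hfin := hlow.trans hup
  have hnE : (nE G : ℝ) = E.card := by
    unfold nE
    rw [Nat.card_eq_fintype_card, Fintype.card_subtype]
  rw [hnE]
  have h8 : (E.card : ℝ) * (1 / 3) ≤ 2 * T := by
    have h9 : ((E.card : ℝ) * (1 / 3)) * Fintype.card Ω ≤ (2 * T) * Fintype.card Ω := by
      linarith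
    exact le_of_mul_le_mul_right h9 hΩ
  have h10 : (0 : ℝ) ≤ E.card := Nat.cast_nonneg _
  linarith

end Pool.Agent.W2helper69.ETS
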